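import Pool.Agent.Q30.FJ.Nov

/-!
# Functors on categories in which partial automorphisms extend
-/

set_option autoImplicit false

namespace Q27.EP

open CategoryTheory
open Pool.Agent.Y110.FJ
open Q30.FJ

universe v u

variable {𝓚 : Type u} [Category.{v} 𝓚]

/-- Extension of partial automorphisms for the objects with the property `P`: for any two morphisms
`f, g : A ⟶ B`, `B` in `P`, there are a morphism `h : B ⟶ E`, `E` in `P`, and an endomorphism `t` of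
`E` with a power `t ^ k = 1`, `k > 0` (so `t` is an automorphism of finite order), such that
`t ∘ h ∘ f = h ∘ g`. -/
def Extends (P : 𝓚 → Prop) : Prop :=
  ∀ ⦃A B : 𝓚⦄ (f g : A ⟶ B), P B → ∃ (E : 𝓚) (h : B ⟶ E) (t : End E) (k : ℕ),
    P E ∧ 0 < k ∧ t ^ k = 1 ∧ (f ≫ h) ≫ t = g ≫ h

/-- Any two morphisms to `M` from objects with the property `P` factor through a morphism to `M` from
an object with this property. -/
def DirectedAt (P : 𝓚 → Prop) (M : 𝓚) : Prop :=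
  ∀ ⦃A A' : 𝓚⦄ (j : A ⟶ M) (j' : A' ⟶ M), P A → P A' → ∃ (B : 𝓚) (i : B ⟶ M) (k : A ⟶ B)
    (k' : A' ⟶ B), P B ∧ k ≫ i = j ∧ k' ≫ i = j'

/-- The functor `𝒜` is injective on morphisms, and each element of `𝒜 M` comes from an object with
the property `P`. -/
structure Finitary (P : 𝓚 → Prop) (𝒜 : 𝓚 ⥤ GrpCat.{0}) (M : 𝓚) : Prop where
  inj : ∀ ⦃A B : 𝓚⦄ (f : A ⟶ B), Function.Injective (𝒜.map f).hom
  sup : ∀ x : 𝒜.obj M, ∃ (A : 𝓚) (j : A ⟶ M) (a : 𝒜.obj A), P A ∧ (𝒜.map j).hom a = x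

/-- The conjugation by `g` on `N`, where `e : 𝒜 M ≃* N`, is on each `𝒜 A`, for `j : A ⟶ M` with `A` in
`P`, given by a morphism `φ : A ⟶ M`, up to an inner automorphism of `N`. -/
def LocAct (P : 𝓚 → Prop) (𝒜 : 𝓚 ⥤ GrpCat.{0}) (M : 𝓚) {G : Type} [Group G] (N : Subgroup G)
    (e : 𝒜.obj M ≃* N) (g : G) : Prop :=
  ∀ ⦃A : 𝓚⦄ (j : A ⟶ M), P A → ∃ (n : N) (φ : A ⟶ M), ∀ a : 𝒜.obj A,
    (n * g : G) * (e ((𝒜.map j).hom a) : G) * (n * g : G)⁻¹ = (e ((𝒜.map φ).hom a) : G)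

variable {P : 𝓚 → Prop} {𝒜 : 𝓚 ⥤ GrpCat.{0}} {M : 𝓚}

theorem map_end_pow {E : 𝓚} (t : End E) : ∀ (k : ℕ) (x : 𝒜.obj E),
    (𝒜.map (t ^ k : End E)).hom x = ((𝒜.map t).hom)^[k] x := by
  intro k
  induction k with
  | zero =>
    intro x
    rw [pow_zero]
    change (𝒜.map (𝟙 E)).hom x = x
    rw [𝒜.map_id]
    rfl
  | succ k ih =>
    intro x
    rw [Function.iterate_succ_apply, ← ih, pow_succ]
    change (𝒜.map (t ≫ (t ^ k : End E))).hom x = _
    rw [𝒜.map_comp]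
    rfl

end Q27.EP
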