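import Pool.Agent.Q27.EP.Cat

/-!
# Functors on categories in which partial automorphisms extend: the criterion
-/

set_option autoImplicit false

namespace Q27.EP

open CategoryTheory
open Pool.Agent.Y110.FJ
open Pool.Agent.Y462.SS (Closed)
open Q30.FJ

universe v u

variable {𝓚 : Type u} [Category.{v} 𝓚] {P : 𝓚 → Prop} {𝒜 : 𝓚 ⥤ GrpCat.{0}} {M : 𝓚}
variable {C D : ∀ (G : Type) [Group G], Prop}

/-- an endomorphism of finite order, as an automorphism -/
theorem exists_aut {E : 𝓚} (t : End E) {k : ℕ} (hk : 0 < k) (ht : t ^ k = 1) :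
    ∃ σ : MulAut (𝒜.obj E), (∀ x, σ x = (𝒜.map t).hom x) ∧ σ ^ k = 1 := by
  obtain ⟨m, rfl⟩ : ∃ m, k = m + 1 := ⟨k - 1, by omega⟩
  have h1 : ∀ x, ((𝒜.map t).hom)^[m + 1] x = x := by
    intro x
    rw [← map_end_pow, ht]
    change (𝒜.map (𝟙 E)).hom x = x
    rw [𝒜.map_id]
    rfl
  have hσ : ∃ σ : MulAut (𝒜.obj E), ∀ x, σ x = (𝒜.map t).hom x := by
    refine ⟨{ toFun := (𝒜.map t).hom, invFun := ((𝒜.map t).hom)^[m], left_inv := ?_,
              right_inv := ?_, map_mul' := map_mul _ }, fun x => rfl⟩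
    · intro x
      rw [← Function.iterate_succ_apply]
      exact h1 x
    · intro x
      exact (Function.iterate_succ_apply' _ m x).symm.trans (h1 x)
  obtain ⟨σ, hσ⟩ := hσ
  refine ⟨σ, hσ, ?_⟩
  have h2 : ∀ (j : ℕ) (x : 𝒜.obj E), (σ ^ j) x = ((𝒜.map t).hom)^[j] x := by
    intro j
    induction j with
    | zero => intro x; rfl
    | succ j ih =>
      intro x
      rw [pow_succ, MulAut.mul_apply, ih, Function.iterate_succ_apply, hσ]
  ext x
  rw [h2, h1]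
  rfl

/-- a finite set of elements comes from one object -/
theorem exists_common (hM : DirectedAt P M) (hF : Finitary P 𝒜 M) (E : Set (𝒜.obj M))
    (hE : E.Finite) : ∃ (A : 𝓚) (j : A ⟶ M), P A ∧ ∀ x ∈ E, ∃ a : 𝒜.obj A,
      (𝒜.map j).hom a = x := by
  induction E, hE using Set.Finite.induction_on with
  | empty =>
    obtain ⟨A, j, a, hA, -⟩ := hF.sup 1
    exact ⟨A, j, hA, fun x hx => absurd hx (Set.notMem_empty x)⟩
  | @insert x E _ _ ih =>
    obtain ⟨A, j, hA, h⟩ := ih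
    obtain ⟨A', j', a', hA', h'⟩ := hF.sup x
    obtain ⟨B, i, k, k', hB, h1, h2⟩ := hM j j' hA hA'
    refine ⟨B, i, hB, ?_⟩
    rintro y (rfl | hy)
    · refine ⟨(𝒜.map k').hom a', ?_⟩
      rw [← h', ← h2, 𝒜.map_comp]
      rfl
    · obtain ⟨a, ha⟩ := h y hy
      refine ⟨(𝒜.map k).hom a, ?_⟩
      rw [← ha, ← h1, 𝒜.map_comp]
      rfl

theorem comp_apply {A B E : 𝓚} (f : A ⟶ B) (g : B ⟶ E) (a : 𝒜.obj A) :
    (𝒜.map (f ≫ g)).hom a = (𝒜.map g).hom ((𝒜.map f).hom a) := by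
  rw [𝒜.map_comp]
  rfl

/-- **the criterion for functors** -/
theorem main_fun (hC : ClosedE C) (hD : ClosedOver C D) (hP : Extends P) (hM : DirectedAt P M)
    (hF : Finitary P 𝒜 M) (hCA : ∀ A : 𝓚, P A → C (𝒜.obj A))
    (G : Type) [Group G] (N : Subgroup G) [N.Normal] (e : 𝒜.obj M ≃* N) (hQ : D (G ⧸ N))
    (h : ∀ g : G, LocAct P 𝒜 M N e g) : D G := by
  refine crit_over hC hD G N hQ ?_
  intro g E hE hEN
  left
  -- the finite set `E` comes from `A`
  have hE' : ((fun x : 𝒜.obj M => (e x : G)) ⁻¹' E).Finite :=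
    hE.preimage (fun x _ y _ hxy => e.injective (Subtype.ext hxy))
  obtain ⟨A, j, hA, hj⟩ := exists_common hM hF _ hE'
  obtain ⟨n, φ, hφ⟩ := h g j hA
  obtain ⟨A₁, j₁, a₁, hA₁, ha₁⟩ := hF.sup (e.symm n)
  obtain ⟨B₀, i₀, k₀, k₀', hB₀, h1, h2⟩ := hM j φ hA hA
  obtain ⟨B, i, k₁, k₂, hB, h3, h4⟩ := hM i₀ j₁ hB₀ hA₁
  obtain ⟨F, u, t, k, hFP, hk, htk, hut⟩ := hP (k₀ ≫ k₁) (k₀' ≫ k₁) hB
  obtain ⟨σ, hσ, hσk⟩ := exists_aut (𝒜 := 𝒜) t hk htk
  have hCF : C (𝒜.obj F) := hCA F hFP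
  have hki : (k₀ ≫ k₁) ≫ i = j := by rw [Category.assoc, h3, h1]
  have hki' : (k₀' ≫ k₁) ≫ i = φ := by rw [Category.assoc, h3, h2]
  -- the inclusion of `𝒜 B`
  obtain ⟨ι, hι⟩ : ∃ ι : 𝒜.obj B →* G, ∀ b, ι b = (e ((𝒜.map i).hom b) : G) :=
    ⟨N.subtype.comp (e.toMonoidHom.comp (𝒜.map i).hom), fun b => rfl⟩
  have hιinj : Function.Injective ι := by
    intro b b' hb
    rw [hι, hι] at hb
    exact hF.inj i (e.injective (Subtype.ext hb))
  have hEι : ∀ x ∈ E, ∃ a : 𝒜.obj A, x = ι ((𝒜.map (k₀ ≫ k₁)).hom a) ∧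
      (n * g : G) * x * (n * g : G)⁻¹ = ι ((𝒜.map (k₀' ≫ k₁)).hom a) := by
    intro x hx
    obtain ⟨a, ha⟩ := hj (e.symm ⟨x, hEN hx⟩) (by
      show (e (e.symm ⟨x, hEN hx⟩) : G) ∈ E
      rw [e.apply_symm_apply]
      exact hx)
    have hxa : x = (e ((𝒜.map j).hom a) : G) := by
      rw [ha, e.apply_symm_apply]
    refine ⟨a, ?_, ?_⟩
    · rw [hι, ← comp_apply, hki, hxa]
    · rw [hι, ← comp_apply, hki', hxa]
      exact hφ a
  obtain ⟨m, hm⟩ : ∃ m : 𝒜.obj B, ι m = (n : G) := by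
    refine ⟨(𝒜.map k₂).hom a₁, ?_⟩
    rw [hι, ← comp_apply, h4, ha₁, e.apply_symm_apply]
  have hle : Subgroup.closure (E ∪ (fun x => g * x * g⁻¹) '' E) ≤ ι.range := by
    rw [Subgroup.closure_le]
    rintro x (hx | ⟨y, hy, rfl⟩)
    · obtain ⟨a, ha, -⟩ := hEι x hx
      exact ⟨_, ha.symm⟩
    · obtain ⟨a, -, ha⟩ := hEι y hy
      refine ⟨m⁻¹ * (𝒜.map (k₀' ≫ k₁)).hom a * m, ?_⟩
      rw [map_mul, map_mul, map_inv, hm, ← ha]
      group
  -- the group of the realization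
  obtain ⟨ρ, hρ⟩ : ∃ ρ : ι.range →* 𝒜.obj B, ∀ x, ι (ρ x) = x :=
    ⟨(MonoidHom.ofInjective hιinj).symm.toMonoidHom, fun x =>
      congrArg Subtype.val ((MonoidHom.ofInjective hιinj).apply_symm_apply x)⟩
  refine ⟨𝒜.obj F ⋊[zpowersHom _ σ] Multiplicative ℤ, inferInstance,
    SemidirectProduct.inl.comp ((𝒜.map u).hom.comp (ρ.comp (Subgroup.inclusion hle))),
    (SemidirectProduct.inl ((𝒜.map u).hom m))⁻¹ *
      SemidirectProduct.inr (Multiplicative.ofAdd (1 : ℤ)),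
    sd_inner hC.base _ hCF σ k 1 hk (by rw [hσk, map_one]), ?_, ?_⟩
  · intro x y hxy
    have h5 := hF.inj u (SemidirectProduct.inl_injective hxy)
    have h6 : (Subgroup.inclusion hle x : G) = (Subgroup.inclusion hle y : G) := by
      rw [← hρ, ← hρ]
      exact congrArg ι h5
    exact Subtype.ext h6
  · intro x y hx hy
    obtain ⟨a, ha, ha'⟩ := hEι x hx
    have e1 : ρ (Subgroup.inclusion hle x) = (𝒜.map (k₀ ≫ k₁)).hom a := by
      apply hιinj
      rw [hρ, ← ha]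
      rfl
    have e2 : ρ (Subgroup.inclusion hle y) = m⁻¹ * (𝒜.map (k₀' ≫ k₁)).hom a * m := by
      apply hιinj
      rw [hρ, map_mul, map_mul, map_inv, hm, ← ha']
      change (y : G) = _
      rw [hy]
      group
    have e3 : σ ((𝒜.map u).hom ((𝒜.map (k₀ ≫ k₁)).hom a)) =
        (𝒜.map u).hom ((𝒜.map (k₀' ≫ k₁)).hom a) := by
      rw [hσ, ← comp_apply, ← comp_apply, ← comp_apply]
      rw [← Category.assoc, hut]
    simp only [MonoidHom.comp_apply]
    rw [e1, e2, mul_inv_rev, inv_inv]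
    have e4 := Pool.Agent.Y961.FJ.conj_inr (zpowersHom (MulAut (𝒜.obj F)) σ)
      (Multiplicative.ofAdd (1 : ℤ)) ((𝒜.map u).hom ((𝒜.map (k₀ ≫ k₁)).hom a))
    have e5 : zpowersHom (MulAut (𝒜.obj F)) σ (Multiplicative.ofAdd (1 : ℤ)) = σ := by
      rw [zpowersHom_apply]
      exact zpow_one σ
    rw [e5, e3] at e4
    simp only [map_mul, map_inv]
    rw [← e4]
    group

/-- the action on the value of the functor -/
theorem exists_act (Q : Type) [Group Q] (θ : Q →* End M) :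
    ∃ φ : Q →* MulAut (𝒜.obj M), ∀ q x, φ q x = (𝒜.map (θ q)).hom x := by
  have h1 : ∀ (q q' : Q) (x : 𝒜.obj M), (𝒜.map (θ (q * q'))).hom x =
      (𝒜.map (θ q)).hom ((𝒜.map (θ q')).hom x) := by
    intro q q' x
    rw [map_mul]
    exact comp_apply (θ q') (θ q) x
  have h2 : ∀ x : 𝒜.obj M, (𝒜.map (θ 1)).hom x = x := by
    intro x
    rw [map_one]
    change (𝒜.map (𝟙 M)).hom x = x
    rw [𝒜.map_id]
    rfl
  refine ⟨{ toFun := fun q =>
              { toFun := (𝒜.map (θ q)).hom, invFun := (𝒜.map (θ q⁻¹)).hom,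
                left_inv := fun x => ?_, right_inv := fun x => ?_, map_mul' := map_mul _ },
            map_one' := ?_, map_mul' := fun q q' => ?_ }, fun q x => rfl⟩
  · rw [← h1, inv_mul_cancel, h2]
  · rw [← h1, mul_inv_cancel, h2]
  · ext x
    exact h2 x
  · ext x
    exact h1 q q' x

/-- **semidirect products** -/
theorem main_sd (hC : ClosedE C) (hD : ClosedOver C D) (hP : Extends P) (hM : DirectedAt P M)
    (hF : Finitary P 𝒜 M) (hCA : ∀ A : 𝓚, P A → C (𝒜.obj A))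
    (Q : Type) [Group Q] (hQ : D Q) (θ : Q →* End M) (φ : Q →* MulAut (𝒜.obj M))
    (hφ : ∀ q x, φ q x = (𝒜.map (θ q)).hom x) : D (𝒜.obj M ⋊[φ] Q) := by
  obtain ⟨e, he⟩ : ∃ e : 𝒜.obj M ≃* (SemidirectProduct.rightHom : 𝒜.obj M ⋊[φ] Q →* Q).ker,
      ∀ x, (e x : 𝒜.obj M ⋊[φ] Q) = SemidirectProduct.inl x := by
    refine ⟨MulEquiv.ofBijective (MonoidHom.mk' (fun x => ⟨SemidirectProduct.inl x, by
      rw [MonoidHom.mem_ker, SemidirectProduct.rightHom_inl]⟩) (fun x y => Subtype.ext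
        (map_mul _ x y))) ⟨?_, ?_⟩, fun x => rfl⟩
    · intro x y hxy
      exact SemidirectProduct.inl_injective (congrArg Subtype.val hxy)
    · rintro ⟨y, hy⟩
      refine ⟨y.left, Subtype.ext ?_⟩
      have h1 : y.right = 1 := hy
      apply SemidirectProduct.ext
      · rfl
      · exact h1.symm
  refine main_fun hC hD hP hM hF hCA _ _ e ?_ ?_
  · refine hD.of_injective _ Q (QuotientGroup.kerLift _) (QuotientGroup.kerLift_injective _) hQ
  · intro g A j hA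
    refine ⟨⟨(SemidirectProduct.inl g.left)⁻¹, ?_⟩, j ≫ θ g.right, fun a => ?_⟩
    · rw [MonoidHom.mem_ker, map_inv, SemidirectProduct.rightHom_inl, inv_one]
    · have h1 : (SemidirectProduct.inl g.left)⁻¹ * g = SemidirectProduct.inr g.right := by
        rw [inv_mul_eq_iff_eq_mul]
        exact (SemidirectProduct.inl_left_mul_inr_right g).symm
      have h2 : ((⟨(SemidirectProduct.inl g.left)⁻¹, by
          rw [MonoidHom.mem_ker, map_inv, SemidirectProduct.rightHom_inl, inv_one]⟩ :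
          (SemidirectProduct.rightHom : 𝒜.obj M ⋊[φ] Q →* Q).ker) : 𝒜.obj M ⋊[φ] Q) * g =
          SemidirectProduct.inr g.right := h1
      rw [h2, he, he, Pool.Agent.Y961.FJ.conj_inr, hφ, comp_apply]

end Q27.EP
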