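import Pool.Agent.Q27.EP.Cat
import Pool.Agent.Q30.FJ.Eppa

/-!
# Finite groups: extension of partial automorphisms
-/

set_option autoImplicit false

namespace Q27.EP

open CategoryTheory

/-- Groups, with the injective homomorphisms as morphisms. -/
structure IG where
  /-- the group -/
  G : Type
  [grp : Group G]

attribute [instance] IG.grp

/-- Injective homomorphisms. -/
@[ext] structure IG.Emb (A B : IG) where
  /-- the homomorphism -/
  f : A.G →* B.G
  inj : Function.Injective f

instance : Category IG where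
  Hom A B := IG.Emb A B
  id A := ⟨MonoidHom.id A.G, Function.injective_id⟩
  comp f g := ⟨g.f.comp f.f, g.inj.comp f.inj⟩

/-- the finite groups -/
def FinIG (A : IG) : Prop := Finite A.G

theorem IG.hom_ext {A B : IG} {f g : A ⟶ B} (h : ∀ x, f.f x = g.f x) : f = g :=
  IG.Emb.ext (MonoidHom.ext h)

theorem IG.extends : Extends FinIG := by
  intro A B f g hB
  have : Finite B.G := hB
  obtain ⟨h, p, hh, hp⟩ := Q30.FJ.fin_real B.G f.f.range g.f.range
    ((MonoidHom.ofInjective f.inj).symm.trans (MonoidHom.ofInjective g.inj))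
  obtain ⟨t, ht⟩ : ∃ t : End (IG.mk (Equiv.Perm B.G)), ∀ x : Equiv.Perm B.G, t.f x = p * x * p⁻¹ :=
    ⟨⟨(MulAut.conj p).toMonoidHom, (MulAut.conj p).injective⟩, fun x => rfl⟩
  have htk : ∀ (k : ℕ) (x : Equiv.Perm B.G), (t ^ k : End (IG.mk (Equiv.Perm B.G))).f x =
      p ^ k * x * (p ^ k)⁻¹ := by
    intro k
    induction k with
    | zero =>
      intro x
      rw [pow_zero p, one_mul, inv_one, mul_one]
      rfl
    | succ k ih =>
      intro x
      rw [pow_succ t]
      change (t ^ k : End (IG.mk (Equiv.Perm B.G))).f (t.f x) = _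
      rw [ih, ht, pow_succ p]
      group
  refine ⟨⟨Equiv.Perm B.G⟩, ⟨h, hh⟩, t, orderOf p, ?_, orderOf_pos p, ?_, ?_⟩
  · exact inferInstanceAs (Finite (Equiv.Perm B.G))
  · apply IG.hom_ext
    intro x
    rw [htk, pow_orderOf_eq_one, one_mul, inv_one, mul_one]
    rfl
  · apply IG.hom_ext
    intro a
    change t.f (h (f.f a)) = h (g.f a)
    rw [ht]
    have h1 := hp ⟨f.f a, a, rfl⟩
    have h2 : (MonoidHom.ofInjective f.inj).symm ⟨f.f a, a, rfl⟩ = a :=
      (MonoidHom.ofInjective f.inj).symm_apply_apply a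
    rw [MulEquiv.trans_apply, h2] at h1
    exact h1.symm

theorem IG.directed (M : IG) (hM : ∀ s : Set M.G, s.Finite → Finite ↥(Subgroup.closure s)) :
    DirectedAt FinIG M := by
  intro A A' j j' hA hA'
  have : Finite A.G := hA
  have : Finite A'.G := hA'
  have h1 : Finite ↥(Subgroup.closure (Set.range j.f ∪ Set.range j'.f)) :=
    hM _ ((Set.finite_range _).union (Set.finite_range _))
  refine ⟨⟨↥(Subgroup.closure (Set.range j.f ∪ Set.range j'.f))⟩,
    ⟨Subgroup.subtype _, Subtype.val_injective⟩,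
    ⟨j.f.codRestrict _ (fun x => Subgroup.subset_closure (Or.inl ⟨x, rfl⟩)), fun x y hxy =>
      j.inj (congrArg Subtype.val hxy)⟩,
    ⟨j'.f.codRestrict _ (fun x => Subgroup.subset_closure (Or.inr ⟨x, rfl⟩)), fun x y hxy =>
      j'.inj (congrArg Subtype.val hxy)⟩, h1, rfl, rfl⟩

end Q27.EP
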