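import Pool.Agent.Q27.EP.Rel

/-!
# Extension of partial automorphisms of finite relational structures: valuations
-/

set_option autoImplicit false

namespace Q27.EP

open CategoryTheory

variable {I : Type} {n : I → ℕ}

section first

variable {m : ℕ} {V W : Type}

open Classical in
/-- the first occurrences of the entries -/
noncomputable def J (t : Fin (m + 1) → V) : Finset (Fin (m + 1)) :=
  Finset.univ.filter fun j => ∀ k < j, t k ≠ t j

theorem mem_J {t : Fin (m + 1) → V} {j : Fin (m + 1)} : j ∈ J t ↔ ∀ k < j, t k ≠ t j := by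
  simp [J]

theorem J_inj {t : Fin (m + 1) → V} {j k : Fin (m + 1)} (hj : j ∈ J t) (hk : k ∈ J t)
    (h : t j = t k) : j = k := by
  rcases lt_trichotomy j k with h1 | h1 | h1
  · exact absurd h (mem_J.1 hk j h1)
  · exact h1
  · exact absurd h.symm (mem_J.1 hj k h1)

theorem zero_mem_J (t : Fin (m + 1) → V) : (0 : Fin (m + 1)) ∈ J t := by
  rw [mem_J]
  intro k hk
  exact absurd hk (Fin.not_lt_zero k)

theorem exists_first (t : Fin (m + 1) → V) (j : Fin (m + 1)) : ∃ k ∈ J t, t k = t j := by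
  have h : ∀ (N : ℕ) (j : Fin (m + 1)), (j : ℕ) ≤ N → ∃ k ∈ J t, t k = t j := by
    intro N
    induction N with
    | zero =>
      intro j hj
      have h0 : j = 0 := Fin.ext (by simpa using hj)
      rw [h0]
      exact ⟨0, zero_mem_J t, rfl⟩
    | succ N ih =>
      intro j hj
      by_cases h1 : j ∈ J t
      · exact ⟨j, h1, rfl⟩
      · rw [mem_J] at h1
        push Not at h1
        obtain ⟨k, hk, hkj⟩ := h1
        obtain ⟨l, hl, hlk⟩ := ih k (by
          have := Fin.lt_def.1 hk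
          omega)
        exact ⟨l, hl, hlk.trans hkj⟩
  exact h j j le_rfl

theorem J_comp (π : V → W) (hπ : Function.Injective π) (t : Fin (m + 1) → V) : J (π ∘ t) = J t := by
  ext j
  rw [mem_J, mem_J]
  exact ⟨fun h k hk hkj => h k hk (congrArg π hkj), fun h k hk hkj => h k hk (hπ hkj)⟩

end first

/-- tuples -/
abbrev Tup (n : I → ℕ) (V : Type) : Type := Σ i : I, (Fin (n i + 1) → V)

/-- the action of permutations on tuples -/
def act {V : Type} (π : Equiv.Perm V) (p : Tup n V) : Tup n V := ⟨p.1, π ∘ p.2⟩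

theorem act_mul {V : Type} (π ρ : Equiv.Perm V) (p : Tup n V) : act (π * ρ) p = act π (act ρ p) :=
  rfl

theorem act_one {V : Type} (p : Tup n V) : act 1 p = p := rfl

theorem act_inv_act {V : Type} (π : Equiv.Perm V) (p : Tup n V) : act π (act π⁻¹ p) = p := by
  rw [← act_mul, mul_inv_cancel, act_one]

theorem inv_act_act {V : Type} (π : Equiv.Perm V) (p : Tup n V) : act π⁻¹ (act π p) = p := by
  rw [← act_mul, inv_mul_cancel, act_one]

open Classical in
/-- the valuation of a vertex -/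
noncomputable def xi (B : RS n) (v : B.S) (p : Tup n B.S) : ZMod 2 :=
  if p.2 0 = v ∧ B.rel p.1 p.2 then 1 else 0

open Classical in
theorem xi_sum (B : RS n) (i : I) (t : Fin (n i + 1) → B.S) :
    ∑ j ∈ J t, xi B (t j) ⟨i, t⟩ = if B.rel i t then 1 else 0 := by
  rw [Finset.sum_eq_single (0 : Fin (n i + 1))]
  · unfold xi
    simp
  · intro j hj hj0
    unfold xi
    rw [if_neg]
    rintro ⟨h1, -⟩
    exact hj0 (J_inj hj (zero_mem_J t) h1.symm)
  · intro h
    exact absurd (zero_mem_J t) h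

/-- the structure of all pairs of a vertex and a valuation -/
noncomputable abbrev Big (B : RS n) : RS n where
  S := B.S × (Tup n B.S → ZMod 2)
  rel i x := ∑ j ∈ J (fun k => (x k).1), (x j).2 ⟨i, fun k => (x k).1⟩ = 1

/-- the embedding of `B` -/
noncomputable def emb (B : RS n) : B ⟶ Big B where
  f v := (v, xi B v)
  inj _ _ h := congrArg Prod.fst h
  iff i t := by
    change (∑ j ∈ J t, xi B (t j) ⟨i, t⟩ = 1) ↔ B.rel i t
    rw [xi_sum]
    split_ifs with h
    · simp [h]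
    · simp [h]

section wit

variable (B : RS n) (π : Equiv.Perm B.S) (F : Set B.S)

/-- the change of the valuation -/
noncomputable def dl (v : B.S) (p : Tup n B.S) : ZMod 2 := xi B (π v) (act π p) - xi B v p

open Classical in
theorem dl_sum (i : I) (t : Fin (n i + 1) → B.S) (h : B.rel i (π ∘ t) ↔ B.rel i t) :
    ∑ j ∈ J t, dl B π (t j) ⟨i, t⟩ = 0 := by
  unfold dl
  rw [Finset.sum_sub_distrib, xi_sum]
  have h1 := xi_sum B i (π ∘ t)
  rw [J_comp π π.injective] at h1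
  have h2 : ∑ j ∈ J t, xi B (π (t j)) (act π ⟨i, t⟩) = if B.rel i (π ∘ t) then 1 else 0 := h1
  rw [h2]
  by_cases h3 : B.rel i t
  · rw [if_pos (h.2 h3), if_pos h3, sub_self]
  · rw [if_neg (fun h4 => h3 (h.1 h4)), if_neg h3, sub_self]

/-- the correction -/
theorem exists_c (hF : ∀ (i : I) (t : Fin (n i + 1) → B.S), (∀ j, t j ∈ F) →
    (B.rel i (π ∘ t) ↔ B.rel i t)) :
    ∃ c : B.S → Tup n B.S → ZMod 2, (∀ v ∈ F, ∀ p, c v p = dl B π v p) ∧
      ∀ (i : I) (t : Fin (n i + 1) → B.S), ∑ j ∈ J t, c (t j) ⟨i, t⟩ = 0 := by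
  classical
  have hw : ∀ p : Tup n B.S, ∃ w : B.S, (∃ j, p.2 j ∉ F) → ∃ k ∈ J p.2, p.2 k ∉ F ∧ w = p.2 k := by
    intro p
    by_cases h : ∃ j, p.2 j ∉ F
    · obtain ⟨j, hj⟩ := h
      obtain ⟨k, hk, hkj⟩ := exists_first p.2 j
      exact ⟨p.2 k, fun _ => ⟨k, hk, hkj ▸ hj, rfl⟩⟩
    · exact ⟨p.2 0, fun h' => absurd h' h⟩
  choose w hw using hw
  refine ⟨fun v p => if v ∈ F then dl B π v p else if v = w p then
    -∑ j ∈ (J p.2).filter (fun j => p.2 j ∈ F), dl B π (p.2 j) p else 0, ?_, ?_⟩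
  · intro v hv p
    exact if_pos hv
  · intro i t
    by_cases h : ∃ j, t j ∉ F
    · obtain ⟨k, hk, hkF, hkw⟩ := hw ⟨i, t⟩ h
      rw [← Finset.sum_filter_add_sum_filter_not (J t) (fun j => t j ∈ F)]
      have h1 : ∑ j ∈ (J t).filter (fun j => t j ∈ F), (if t j ∈ F then dl B π (t j) ⟨i, t⟩ else
          if t j = w ⟨i, t⟩ then -∑ j ∈ (J t).filter (fun j => t j ∈ F), dl B π (t j) ⟨i, t⟩
          else 0) = ∑ j ∈ (J t).filter (fun j => t j ∈ F), dl B π (t j) ⟨i, t⟩ := by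
        apply Finset.sum_congr rfl
        intro j hj
        rw [if_pos (Finset.mem_filter.1 hj).2]
      have h2 : ∑ j ∈ (J t).filter (fun j => ¬ t j ∈ F), (if t j ∈ F then dl B π (t j) ⟨i, t⟩ else
          if t j = w ⟨i, t⟩ then -∑ j ∈ (J t).filter (fun j => t j ∈ F), dl B π (t j) ⟨i, t⟩
          else 0) = -∑ j ∈ (J t).filter (fun j => t j ∈ F), dl B π (t j) ⟨i, t⟩ := by
        rw [Finset.sum_eq_single k]
        · rw [if_neg hkF, if_pos hkw.symm]
        · intro j hj hjk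
          rw [if_neg (Finset.mem_filter.1 hj).2, if_neg]
          intro h3
          exact hjk (J_inj (Finset.mem_filter.1 hj).1 hk (h3.trans hkw))
        · intro h3
          exact absurd (Finset.mem_filter.2 ⟨hk, hkF⟩) h3
      exact (congrArg₂ (· + ·) h1 h2).trans (add_neg_cancel _)
    · push Not at h
      rw [← dl_sum B π i t (hF i t h)]
      apply Finset.sum_congr rfl
      intro j _
      exact if_pos (h j)

variable (c : B.S → Tup n B.S → ZMod 2)

/-- the permutation of the pairs -/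
noncomputable def th : Equiv.Perm (Big B).S where
  toFun x := (π x.1, fun p => x.2 (act π⁻¹ p) + c x.1 (act π⁻¹ p))
  invFun y := (π⁻¹ y.1, fun p => y.2 (act π p) - c (π⁻¹ y.1) p)
  left_inv x := by
    refine Prod.ext (π.symm_apply_apply x.1) (funext fun p => ?_)
    change x.2 (act π⁻¹ (act π p)) + c x.1 (act π⁻¹ (act π p)) - c (π.symm (π x.1)) p = x.2 p
    rw [inv_act_act, Equiv.symm_apply_apply, add_sub_cancel_right]
  right_inv y := by
    refine Prod.ext (π.apply_symm_apply y.1) (funext fun p => ?_)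
    change y.2 (act π (act π⁻¹ p)) - c (π⁻¹ y.1) (act π⁻¹ p) + c (π⁻¹ y.1) (act π⁻¹ p) = y.2 p
    rw [act_inv_act, sub_add_cancel]

theorem th_iff (hc : ∀ (i : I) (t : Fin (n i + 1) → B.S), ∑ j ∈ J t, c (t j) ⟨i, t⟩ = 0)
    (i : I) (x : Fin (n i + 1) → (Big B).S) :
    (Big B).rel i (th B π c ∘ x) ↔ (Big B).rel i x := by
  obtain ⟨t, ht⟩ : ∃ t : Fin (n i + 1) → B.S, t = fun k => (x k).1 := ⟨_, rfl⟩
  have h1 : (fun k => ((th B π c ∘ x) k).1) = π ∘ t := by
    rw [ht]
    rfl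
  change (∑ j ∈ J (fun k => ((th B π c ∘ x) k).1), ((th B π c ∘ x) j).2
    ⟨i, fun k => ((th B π c ∘ x) k).1⟩ = 1) ↔ (∑ j ∈ J (fun k => (x k).1),
    (x j).2 ⟨i, fun k => (x k).1⟩ = 1)
  rw [h1, ← ht, J_comp π π.injective]
  have h2 : ∑ j ∈ J t, ((th B π c ∘ x) j).2 ⟨i, π ∘ t⟩ =
      ∑ j ∈ J t, ((x j).2 ⟨i, t⟩ + c (t j) ⟨i, t⟩) := by
    apply Finset.sum_congr rfl
    intro j _
    change (x j).2 (act π⁻¹ (act π ⟨i, t⟩)) + c (x j).1 (act π⁻¹ (act π ⟨i, t⟩)) = _
    rw [inv_act_act, ht]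
  rw [h2, Finset.sum_add_distrib, hc, add_zero]

theorem th_pow : ∀ k : ℕ, ∃ d : B.S → Tup n B.S → ZMod 2, ∀ (v : B.S) (χ : Tup n B.S → ZMod 2),
    (th B π c ^ k) (v, χ) = ((π ^ k) v, fun p => χ (act (π ^ k)⁻¹ p) + d v p) := by
  intro k
  induction k with
  | zero =>
    refine ⟨fun _ _ => 0, fun v χ => ?_⟩
    refine Prod.ext rfl (funext fun p => ?_)
    change χ p = χ (act (π ^ 0)⁻¹ p) + 0
    rw [pow_zero, inv_one, act_one, add_zero]
  | succ k ih =>
    obtain ⟨d, hd⟩ := ih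
    refine ⟨fun v p => d v (act π⁻¹ p) + c ((π ^ k) v) (act π⁻¹ p), fun v χ => ?_⟩
    rw [pow_succ', Equiv.Perm.mul_apply, hd]
    refine Prod.ext ?_ (funext fun p => ?_)
    · change π ((π ^ k) v) = _
      rw [pow_succ', Equiv.Perm.mul_apply]
    · change χ (act (π ^ k)⁻¹ (act π⁻¹ p)) + d v (act π⁻¹ p) + c ((π ^ k) v) (act π⁻¹ p) =
        χ (act (π ^ (k + 1))⁻¹ p) + (d v (act π⁻¹ p) + c ((π ^ k) v) (act π⁻¹ p))
      rw [← act_mul, pow_succ', mul_inv_rev, add_assoc]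

theorem th_fin [Finite B.S] : ∃ K : ℕ, 0 < K ∧ th B π c ^ K = 1 := by
  obtain ⟨d, hd⟩ := th_pow B π c (orderOf π)
  refine ⟨orderOf π + orderOf π, by have := orderOf_pos π; omega, ?_⟩
  ext1 ⟨v, χ⟩
  rw [pow_add, Equiv.Perm.mul_apply, hd, hd]
  rw [pow_orderOf_eq_one]
  refine Prod.ext rfl (funext fun p => ?_)
  change χ (act 1⁻¹ (act 1⁻¹ p)) + d v (act 1⁻¹ p) + d v p = χ p
  rw [inv_one, act_one, act_one, add_assoc, CharTwo.add_self_eq_zero, add_zero]

end wit

/-- **finite relational structures have extension of partial automorphisms** -/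
theorem RS.extends : Extends (FinRS : RS n → Prop) := by
  intro A B f g hB
  have : Finite B.S := hB
  obtain ⟨π, hπ⟩ : ∃ π : Equiv.Perm B.S, ∀ a, π (f.f a) = g.f a := by
    obtain ⟨π, hπ⟩ := Q30.FJ.pinj (Set.range f.f)
      (fun x => g.f ((Equiv.ofInjective f.f f.inj).symm x))
      (g.inj.comp (Equiv.ofInjective f.f f.inj).symm.injective)
    refine ⟨π, fun a => ?_⟩
    have h1 := hπ ⟨f.f a, a, rfl⟩
    have h2 : (Equiv.ofInjective f.f f.inj).symm ⟨f.f a, a, rfl⟩ = a :=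
      (Equiv.ofInjective f.f f.inj).symm_apply_apply a
    rw [h2] at h1
    exact h1
  obtain ⟨c, hc1, hc2⟩ := exists_c B π (Set.range f.f) (by
    intro i t ht
    choose s hs using ht
    have h1 : t = f.f ∘ s := (funext hs).symm
    have h2 : π ∘ t = g.f ∘ s := by
      rw [h1]
      funext k
      exact hπ (s k)
    rw [h2, g.iff, h1, f.iff])
  obtain ⟨K, hK, hθ⟩ := th_fin B π c
  obtain ⟨U, hU⟩ : ∃ U : Set (Big B).S, U = {x | ∃ (k : ℕ) (v : B.S),
    x = (th B π c ^ k) ((emb B).f v)} := ⟨_, rfl⟩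
  have hUfin : U.Finite := by
    refine ((Set.finite_lt_nat K).prod (Set.finite_univ (α := B.S))).image
      (fun q : ℕ × B.S => (th B π c ^ q.1) ((emb B).f q.2)) |>.subset ?_
    rw [hU]
    rintro x ⟨k, v, rfl⟩
    refine ⟨(k % K, v), ⟨Nat.mod_lt k hK, trivial⟩, ?_⟩
    change (th B π c ^ (k % K)) ((emb B).f v) = _
    conv_rhs => rw [← Nat.mod_add_div k K, pow_add, pow_mul, hθ, one_pow, mul_one]
  have hstep : ∀ x ∈ U, th B π c x ∈ U := by
    rw [hU]
    rintro x ⟨k, v, rfl⟩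
    exact ⟨k + 1, v, by rw [pow_succ', Equiv.Perm.mul_apply]⟩
  obtain ⟨t, ht⟩ : ∃ t : End ((Big B).res U), ∀ x, ((t.f x : U) : (Big B).S) = th B π c (x : U) :=
    ⟨⟨fun x : U => (⟨th B π c x, hstep x x.2⟩ : U), fun (x y : U) hxy => Subtype.ext
      ((th B π c).injective (congrArg Subtype.val hxy)),
      fun i s => th_iff B π c hc2 i (fun k => (s k : (Big B).S))⟩, fun x => rfl⟩
  have htk : ∀ (k : ℕ) (x : ((Big B).res U).S), (((t ^ k : End ((Big B).res U)).f x : U) :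
      (Big B).S) = (th B π c ^ k) (x : U) := by
    intro k
    induction k with
    | zero => intro x; rfl
    | succ k ih =>
      intro x
      rw [pow_succ, pow_succ]
      change (((t ^ k : End ((Big B).res U)).f (t.f x) : U) : (Big B).S) = _
      rw [ih, ht, Equiv.Perm.mul_apply]
  refine ⟨(Big B).res U, RS.lift (emb B) U (fun v => ?_), t, K, hUfin.to_subtype, hK, ?_, ?_⟩
  · rw [hU]
    exact ⟨0, v, rfl⟩
  · apply RS.hom_ext
    intro x
    apply Subtype.ext
    rw [htk, hθ]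
    rfl
  · apply RS.hom_ext
    intro a
    apply Subtype.ext
    change ((t.f ⟨(emb B).f (f.f a), _⟩ : U) : (Big B).S) = (emb B).f (g.f a)
    rw [ht]
    refine Prod.ext (hπ a) (funext fun p => ?_)
    change xi B (f.f a) (act π⁻¹ p) + c (f.f a) (act π⁻¹ p) = xi B (g.f a) p
    rw [hc1 (f.f a) ⟨a, rfl⟩, dl, act_inv_act, hπ]
    ring

end Q27.EP
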