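import Pool.Agent.Q27.EP.Crit
import Pool.Agent.Q27.EP.Wit
import Pool.Agent.Q27.EP.Grp

/-!
# Functors on categories in which partial automorphisms extend: summary
-/

set_option autoImplicit false

namespace Q27.EP

open CategoryTheory
open Pool.Agent.Y110.FJ
open Q30.FJ

variable {C D : ∀ (G : Type) [Group G], Prop}

/-- kernels and semidirect products together -/
theorem main (hC : ClosedE C) (hD : ClosedOver C D) (𝓚 : Type 1) [Category.{0} 𝓚] (P : 𝓚 → Prop)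
    (𝒜 : 𝓚 ⥤ GrpCat.{0}) (M : 𝓚) (hP : Extends P) (hM : DirectedAt P M) (hF : Finitary P 𝒜 M)
    (hCA : ∀ A : 𝓚, P A → C (𝒜.obj A)) :
    (∀ (G : Type) [Group G] (N : Subgroup G) [N.Normal] (e : 𝒜.obj M ≃* N), D (G ⧸ N) →
      (∀ g : G, LocAct P 𝒜 M N e g) → D G) ∧
    ∀ (Q : Type) [Group Q] (θ : Q →* End M), ∃ φ : Q →* MulAut (𝒜.obj M),
      (∀ q x, φ q x = (𝒜.map (θ q)).hom x) ∧ (D Q → D (𝒜.obj M ⋊[φ] Q)) := by
  refine ⟨fun G _ N _ e hQ h => main_fun hC hD hP hM hF hCA G N e hQ h, fun Q _ θ => ?_⟩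
  obtain ⟨φ, hφ⟩ := exists_act (𝒜 := 𝒜) Q θ
  exact ⟨φ, hφ, fun hQ => main_sd hC hD hP hM hF hCA Q hQ θ φ hφ⟩

end Q27.EP
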