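import Pool.Agent.Q27.EP.Cat
import Pool.Agent.Q30.FJ.Eppa

/-!
# Relational structures: extension of partial automorphisms (Hrushovski, Herwig)
-/

set_option autoImplicit false

namespace Q27.EP

open CategoryTheory

variable {I : Type} (n : I → ℕ)

/-- Relational structures with relations of arities `n i + 1`, for `i` in a set `I` of any
cardinality. -/
structure RS where
  /-- the underlying set -/
  S : Type
  /-- the relations -/
  rel : ∀ i : I, (Fin (n i + 1) → S) → Prop

variable {n}

/-- Embeddings: injective maps which preserve and reflect the relations. -/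
@[ext] structure RS.Emb (A B : RS n) where
  /-- the map -/
  f : A.S → B.S
  inj : Function.Injective f
  iff : ∀ (i : I) (t : Fin (n i + 1) → A.S), B.rel i (f ∘ t) ↔ A.rel i t

instance : Category (RS n) where
  Hom A B := RS.Emb A B
  id A := ⟨id, Function.injective_id, fun _ _ => Iff.rfl⟩
  comp f g := ⟨g.f ∘ f.f, g.inj.comp f.inj, fun i t => (g.iff i _).trans (f.iff i t)⟩

/-- the finite structures -/
def FinRS (A : RS n) : Prop := Finite A.S

theorem RS.hom_ext {A B : RS n} {f g : A ⟶ B} (h : ∀ x, f.f x = g.f x) : f = g :=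
  RS.Emb.ext (funext h)

/-- the substructure on a subset -/
abbrev RS.res (M : RS n) (U : Set M.S) : RS n := ⟨U, fun i t => M.rel i (fun k => (t k : M.S))⟩

/-- the inclusion of a substructure -/
def RS.incl (M : RS n) (U : Set M.S) : M.res U ⟶ M :=
  ⟨Subtype.val, Subtype.val_injective, fun _ _ => Iff.rfl⟩

/-- factorization through a substructure -/
def RS.lift {A M : RS n} (f : A ⟶ M) (U : Set M.S) (h : ∀ x, f.f x ∈ U) : A ⟶ M.res U :=
  ⟨fun x => ⟨f.f x, h x⟩, fun _ _ hxy => f.inj (congrArg Subtype.val hxy), fun i t => f.iff i t⟩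

theorem RS.directed (M : RS n) : DirectedAt FinRS M := by
  intro A A' j j' hA hA'
  have : Finite A.S := hA
  have : Finite A'.S := hA'
  refine ⟨M.res (Set.range j.f ∪ Set.range j'.f), M.incl _, RS.lift j _ (fun x => Or.inl ⟨x, rfl⟩),
    RS.lift j' _ (fun x => Or.inr ⟨x, rfl⟩), ?_, rfl, rfl⟩
  exact ((Set.finite_range j.f).union (Set.finite_range j'.f)).to_subtype

end Q27.EP
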